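import Mathlib
import Pool.Agent.MP_5f6c2d_pr.h95.Arm

set_option autoImplicit false

open MeasureTheory Set
open Pool.Agent.MP_5f6c2d_pr
open scoped ENNReal

namespace Pool.Agent.Results.MP_5f6c2d_pr.CentreExtended

/-- At the uniform colour law a walk along tricolor edges joins the box of size `n` to distance `N`
with probability at least `(n / N) ^ 2 / 726`; for `N = 3 n` this is the extended phase. -/
theorem result (p : PMF (Fin 3)) (hp : ∀ i, p i = 1 / 3) (n N : ℕ) (hn : 1 ≤ n) (hN : n ≤ N) :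
    ENNReal.ofReal (((n : ℝ) / N) ^ 2 / 726) ≤
      Measure.infinitePi (fun _ : Fin 3 → ℤ => p.toMeasure)
        {ω | ∃ m : ℕ, 1 ≤ m ∧ ∃ y : ℕ → Finset (Fin 3 → ℤ),
          (∀ k, k < m → Step ω (y k) (y (k + 1))) ∧
          (∃ v ∈ y 0, ∀ i, |v i| ≤ (n : ℤ)) ∧ ∃ v ∈ y m, ∃ i, (N : ℤ) ≤ |v i|} := by
  have hν : ∀ k, p.toMeasure.map (· + k) = p.toMeasure := by
    intro k
    refine Measure.ext_of_singleton fun a => ?_
    rw [Measure.map_apply (measurable_of_countable _) (measurableSet_singleton _),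
      preimage_add_right_singleton, PMF.toMeasure_apply_singleton _ _ (measurableSet_singleton _),
      PMF.toMeasure_apply_singleton _ _ (measurableSet_singleton _), hp, hp]
  set P := 2 * (N + n - 1) / n + 1 with hP
  have h1 : 2 * (N + n - 1) < n * P := Nat.lt_mul_div_succ _ hn
  have h2 : n * (2 * (N + n - 1) / n) ≤ 2 * (N + n - 1) := Nat.mul_div_le _ _
  have h3 : n * (2 * P + 1) ≤ 11 * N := by
    have : n * (2 * P + 1) = 2 * (n * (2 * (N + n - 1) / n)) + 3 * n := by rw [hP]; ring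
    omega
  have h4 := H95.arm_ge hν (n := n) (N := N) (P := P) (by omega) (by omega) (by
    have : ((2 * (N + n - 1) : ℕ) : ℤ) ≤ ((n * P : ℕ) : ℤ) := by exact_mod_cast h1.le
    rw [Nat.cast_mul n P] at this
    omega)
  rw [← PP_comp i0 i0_inj (H95.meas_arm n N)] at h4
  refine le_trans ?_ (measure_mono (s := {ω | ω ∘ i0 ∈ H95.Arm n N}) ?_)
  · refine le_trans ?_ ((one_mul _).le)
    refine le_trans ?_ (mul_le_mul_left (show ENNReal.ofReal (((n : ℝ) / N) ^ 2 / 726) *
      (6 * (2 * P + 1) ^ 2 : ℕ) ≤ 1 from ?_) _)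
    · rw [mul_assoc]
      exact le_mul_of_one_le_right zero_le h4
    · rw [← ENNReal.ofReal_natCast, ← ENNReal.ofReal_mul (by positivity), ENNReal.ofReal_le_one]
      have a1 : (n : ℝ) * (2 * P + 1) ≤ 11 * N := by exact_mod_cast h3
      have a2 : (0 : ℝ) < N := by exact_mod_cast (by omega : 0 < N)
      have a3 := pow_le_pow_left₀ (by positivity) a1 2
      push_cast
      rw [div_pow, div_div, div_mul_eq_mul_div, div_le_one (by positivity)]
      nlinarith
  · rintro ω ⟨f, m, hm, hg, ⟨j, hj⟩, j', i, hi⟩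
    refine ⟨m, hm, fun k => (ch (o (ω ∘ i0) f k)).image i0, fun k _ => ?_,
      ⟨_, Finset.mem_image_of_mem _ (mem_ch.2 (Or.inl ⟨j, rfl⟩)), hj⟩,
      _, Finset.mem_image_of_mem _ (mem_ch.2 (Or.inl ⟨j', rfl⟩)), i, hi⟩
    simp only [o_succ]
    exact H95.state_step (good_o hg k)

end Pool.Agent.Results.MP_5f6c2d_pr.CentreExtended
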