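import Mathlib
import Pool.Agent.MP_5f6c2d_pr.Model
import Pool.Agent.MP_5f6c2d_pr.I29.Gal
import Pool.Agent.MP_5f6c2d_pr.I29.Gad
import Pool.Agent.MP_5f6c2d_pr.I29.Cas
import Pool.Agent.MP_5f6c2d_pr.I29.Conn
import Pool.Agent.MP_5f6c2d_pr.I29.Exi
import Pool.Agent.MP_5f6c2d_pr.I29.Mix
import Pool.Agent.MP_5f6c2d_pr.I29.Tai
import Pool.Agent.MP_5f6c2d_pr.I29.Bri
import Pool.Agent.MP_5f6c2d_pr.I29.Core

set_option autoImplicit false

open MeasureTheory
open Pool.Agent.MP_5f6c2d_pr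

namespace Pool.Agent.Results.MP_5f6c2d_pr.Indistinguishability

/-- Infinite tricolor paths are indistinguishable. Let `A ω Q` be a measurable property of a
colouring `ω` of the lattice and a vertex `Q` that is covariant under lattice translations and
constant along tricolor edges. Then almost surely all infinite tricolor paths have the property,
or almost surely none has it. -/
theorem result (p : PMF (Fin 3))
    (A : ((Fin 3 → ℤ) → Fin 3) → Finset (Fin 3 → ℤ) → Prop)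
    (hmeas : ∀ Q, MeasurableSet {ω | A ω Q})
    (hlat : ∀ ω ω' Q, (∀ v, ((∀ i, Even (v i)) ∨ (∀ i, Odd (v i))) → ω v = ω' v) →
      (A ω Q ↔ A ω' Q))
    (hcov : ∀ v, ((∀ i, Even (v i)) ∨ (∀ i, Odd (v i))) → ∀ ω Q,
      A ω (Q.image (· + v)) ↔ A (fun u => ω (u + v)) Q)
    (hpath : ∀ ω Q R, Step ω Q R → (A ω Q ↔ A ω R)) :
    (∀ᵐ ω ∂(Measure.infinitePi (fun _ : Fin 3 → ℤ => p.toMeasure)),
      ∀ y : ℕ → Finset (Fin 3 → ℤ), Function.Injective y →
        (∀ k, Step ω (y k) (y (k + 1))) → A ω (y 0)) ∨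
    (∀ᵐ ω ∂(Measure.infinitePi (fun _ : Fin 3 → ℤ => p.toMeasure)),
      ∀ y : ℕ → Finset (Fin 3 → ℤ), Function.Injective y →
        (∀ k, Step ω (y k) (y (k + 1))) → ¬ A ω (y 0)) :=
  I29.bri (I29.core (I29.con I29.gal I29.gad I29.cas) I29.exi I29.fen I29.mixing
    (I29.tai I29.fen I29.app)) p A hmeas hlat hcov hpath

end Pool.Agent.Results.MP_5f6c2d_pr.Indistinguishability
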