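import Mathlib
import Pool.Agent.MP_5f6c2d_pr.Model
import Pool.Agent.MP_5f6c2d_pr.I29.Gal
import Pool.Agent.MP_5f6c2d_pr.I29.Gad
import Pool.Agent.MP_5f6c2d_pr.I29.Cas
import Pool.Agent.MP_5f6c2d_pr.I29.Conn
import Pool.Agent.MP_5f6c2d_pr.I29.Exi
import Pool.Agent.MP_5f6c2d_pr.I29.Mix
import Pool.Agent.MP_5f6c2d_pr.I29.Tai
import Pool.Agent.MP_5f6c2d_pr.I29.Core
import Pool.Agent.MP_5f6c2d_pr.Sy.Zw
import Pool.Agent.MP_5f6c2d_pr.Sy.Mp
import Pool.Agent.MP_5f6c2d_pr.Sy.Sg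
import Pool.Agent.MP_5f6c2d_pr.Sy.Br
import Pool.Agent.MP_5f6c2d_pr.Sy.Fn
import Pool.Agent.MP_5f6c2d_pr.Sy.Main

set_option autoImplicit false

open MeasureTheory Filter Topology
open Pool.Agent.MP_5f6c2d_pr

namespace Pool.Agent.Results.MP_5f6c2d_pr.LimitSymmetry

/-- The edge `e₀` lies on an infinite tricolor path (the event `I`). -/
def onInf (ω : (Fin 3 → ℤ) → Fin 3) : Prop :=
  ∃ x : ℤ → Finset (Fin 3 → ℤ), Function.Injective x ∧ (∀ k, Step ω (x k) (x (k + 1))) ∧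
    x 0 ∩ x 1 = {![0, 0, 0], ![2, 0, 0], ![1, 1, 1]}

/-- The rescaled path `t ↦ x_{⌊n t⌋} / a`; a vertex is placed at the centroid of its cells. -/
noncomputable def scaled (a : ℝ) (n : ℕ) (x : ℤ → Finset (Fin 3 → ℤ)) (t : ℝ) : Fin 3 → ℝ :=
  a⁻¹ • ((1 / 4 : ℝ) • ∑ v ∈ x ⌊(n : ℝ) * t⌋, fun i => ((v i : ℤ) : ℝ))

/-- Conditioned on `I`, the rescaled infinite tricolor path through `e₀` has asymptotically the
same law as its image under any signed permutation of the coordinates, time reversal and time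
shift, for every colour law and every sequence of scales. -/
theorem result (p : PMF (Fin 3)) (path : ((Fin 3 → ℤ) → Fin 3) → ℤ → Finset (Fin 3 → ℤ))
    (hpath : ∀ ω, onInf ω → path ω 0 = {![0, 0, 0], ![2, 0, 0], ![1, 1, 1], ![1, 1, -1]} ∧
      path ω 1 = {![0, 0, 0], ![2, 0, 0], ![1, 1, 1], ![1, -1, 1]} ∧
      Function.Injective (path ω) ∧ ∀ k, Step ω (path ω k) (path ω (k + 1)))
    (a : ℕ → ℝ) (ha : Tendsto a atTop atTop)
    (σ : Equiv.Perm (Fin 3)) (ε : Fin 3 → ℤ) (hε : ∀ i, ε i = 1 ∨ ε i = -1)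
    (η : ℝ) (hη : η = 1 ∨ η = -1) (u : ℕ → ℝ)
    (F : UniformOnFun ℝ (Fin 3 → ℝ) {K : Set ℝ | IsCompact K} → ℝ)
    (hF : UniformContinuous F) (hb : ∃ C : ℝ, ∀ f, |F f| ≤ C) :
    Tendsto (fun n : ℕ =>
      ∫ ω, F (UniformOnFun.ofFun {K : Set ℝ | IsCompact K} (scaled (a n) n (path ω)))
        ∂(ProbabilityTheory.cond (Measure.infinitePi (fun _ : Fin 3 → ℤ => p.toMeasure))
          {ω | onInf ω}) -
      ∫ ω, F (UniformOnFun.ofFun {K : Set ℝ | IsCompact K} fun t i => (ε i : ℝ) *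
          (scaled (a n) n (path ω) (u n + η * t) (σ i) - scaled (a n) n (path ω) (u n) (σ i)))
        ∂(ProbabilityTheory.cond (Measure.infinitePi (fun _ : Fin 3 → ℤ => p.toMeasure))
          {ω | onInf ω})) atTop (𝓝 0) := by
  obtain ⟨C, hC⟩ := hb
  have core := I29.core (I29.con I29.gal I29.gad I29.cas) I29.exi I29.fen I29.mixing
    (I29.tai I29.fen I29.app)
  have key := (Sy.main p.toMeasure (Sy.zed Sy.zw Sy.mp Sy.em core) Sy.mp Sy.sg Sy.fn ha σ ε hε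
    hη u hF hC).const_mul (h58.mu p.toMeasure {ω | Sy.OnInf ω})⁻¹.toReal
  rw [mul_zero] at key
  refine key.congr fun n => ?_
  have sc : ∀ ω, onInf ω → ∀ t i, scaled (a n) n (path ω) t i = (a n)⁻¹ * (1 / 4 *
      (I29.Bri.io (Sy.cs Sy.sS + Sy.D (fun u => ω (I29.Bri.io u)) Sy.sS ⌊n * t⌋) i : ℝ)) := by
    intro ω h t i
    obtain ⟨h0, h1, h2, h3⟩ := hpath ω h
    rw [← (Sy.br ω).2 _ h0 h1 h2 h3]
    simp [scaled, Finset.sum_apply]
  rw [mul_sub]
  congr 1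
  · refine (Sy.int_cond _ Sy.br (Sy.Psi_meas Sy.fn hF _ n 0 1 abs_one
      fun x _ => I29.Bri.io (Sy.cs Sy.sS + x)) fun ω h => ?_).symm
    refine congrArg F (congrArg _ (funext fun t => funext fun i => ?_))
    rw [sc ω h]
    simp only [zero_add, one_mul]
  · refine (Sy.int_cond _ Sy.br (Sy.Psi_meas Sy.fn hF _ n (u n) η
      (by rcases hη with e | e <;> simp [e])
      fun x y i => ε i * I29.Bri.io (x - y) (σ i)) fun ω h => ?_).symm
    refine congrArg F (congrArg _ (funext fun t => funext fun i => ?_))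
    rw [sc ω h, sc ω h]
    simp only [I29.Bri.io_add, I29.Bri.io_sub, Pi.add_apply, Pi.sub_apply]
    push_cast; ring

end Pool.Agent.Results.MP_5f6c2d_pr.LimitSymmetry
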