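import Mathlib
import Pool.Agent.MP_5f6c2d_pr.h58.Decay

/- Polynomial sub-ballisticity of tricolor paths. -/

set_option autoImplicit false
open scoped Classical ENNReal
open MeasureTheory

namespace Pool.Agent.Results.MP_5f6c2d_pr.SubBallistic

/-- Adjacency of two cells of the body centred cubic lattice. -/
def adj (v w : Fin 3 → ℤ) : Prop :=
  ((∀ i, Even (v i)) ∨ (∀ i, Odd (v i))) ∧ ((∀ i, Even (w i)) ∨ (∀ i, Odd (w i))) ∧
    ((∃ i, (v i - w i = 2 ∨ w i - v i = 2) ∧ ∀ j, j ≠ i → v j = w j) ∨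
      (∀ i, v i - w i = 1 ∨ w i - v i = 1))

/-- `Q` and `R` are vertices of the tessellation joined by a tricolor edge. -/
def step (ω : (Fin 3 → ℤ) → Fin 3) (Q R : Finset (Fin 3 → ℤ)) : Prop :=
  Q.card = 4 ∧ R.card = 4 ∧ Q ≠ R ∧
    (∀ v ∈ Q, ∀ w ∈ Q, v ≠ w → adj v w) ∧ (∀ v ∈ R, ∀ w ∈ R, v ≠ w → adj v w) ∧
    (Q ∩ R).card = 3 ∧ ∀ c : Fin 3, ∃ v ∈ Q ∩ R, ω v = c

open Pool.Agent.MP_5f6c2d_pr.h58

def io (v : Cl) : Cl := ![v 0 + v 1 - v 2, v 0 - v 1 + v 2, v 0 - v 1 - v 2]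

theorem io_inj : Function.Injective io := by
  intro u v h
  have h0 := congrFun h 0
  have h1 := congrFun h 1
  have h2 := congrFun h 2
  simp [io] at h0 h1 h2
  ext i; fin_cases i <;> simp <;> omega

theorem io_add (u v : Cl) : io (u + v) = io u + io v := by
  ext i; fin_cases i <;> simp [io] <;> ring

theorem io_sub (u v : Cl) : io (u - v) = io u - io v := by
  ext i; fin_cases i <;> simp [io] <;> ring

def dd (x y z : ℤ) : Prop :=
  ((x = 2 ∨ x = -2) ∧ y = 0 ∧ z = 0) ∨ ((y = 2 ∨ y = -2) ∧ x = 0 ∧ z = 0) ∨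
    ((z = 2 ∨ z = -2) ∧ x = 0 ∧ y = 0) ∨ ((x = 1 ∨ x = -1) ∧ (y = 1 ∨ y = -1) ∧ (z = 1 ∨ z = -1))

instance (x y z : ℤ) : Decidable (dd x y z) := by unfold dd; infer_instance

theorem adj_dd {v u : Cl} (h : adj v u) : dd (v 0 - u 0) (v 1 - u 1) (v 2 - u 2) := by
  obtain ⟨-, -, ⟨i, h1, h2⟩ | h⟩ := h
  · have a0 := h2 0
    have a1 := h2 1
    have a2 := h2 2
    unfold dd
    fin_cases i <;> simp at h1 a0 a1 a2 <;> omega
  · have a0 := h 0
    have a1 := h 1
    have a2 := h 2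
    unfold dd; omega

theorem geo0 : ∀ a c d e : Fin 4, a ≠ c → a ≠ d → a ≠ e → c ≠ d → c ≠ e → d ≠ e →
    ∀ x ∈ [(-2 : ℤ), -1, 0, 1, 2], ∀ y ∈ [(-2 : ℤ), -1, 0, 1, 2], ∀ z ∈ [(-2 : ℤ), -1, 0, 1, 2],
    dd x y z → dd (x - io (w c) 0) (y - io (w c) 1) (z - io (w c) 2) →
    dd (x - io (w c) 0 - io (w d) 0) (y - io (w c) 1 - io (w d) 1) (z - io (w c) 2 - io (w d) 2) →
    (x = - io (w a) 0 ∧ y = - io (w a) 1 ∧ z = - io (w a) 2) ∨
      (x = - io (w e) 0 ∧ y = - io (w e) 1 ∧ z = - io (w e) 2) := by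
  decide +kernel

theorem geo (s : St) (v : Cl) (h1 : adj v (io (cell s 1))) (h2 : adj v (io (cell s 2)))
    (h3 : adj v (io (cell s 3))) : v = io (cell s 0) ∨ v = io (cell (flip s) 0) := by
  have e2 : io (cell s 2) = io (cell s 1) + io (w (s.2 1)) := by rw [← io_add]; rfl
  have e3 : io (cell s 3) = io (cell s 1) + io (w (s.2 1)) + io (w (s.2 2)) := by
    rw [← io_add, ← io_add, cell_3']; rfl
  have e0 : io (cell s 0) = io (cell s 1) - io (w (s.2 0)) := by
    rw [← io_sub, cell_1, add_sub_cancel_right]; rfl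
  have e4 : io (cell (flip s) 0) = io (cell s 1) - io (w (s.2 3)) := by rw [← io_sub]; rfl
  rw [e2] at h2; rw [e3] at h3; rw [e0, e4]
  generalize io (cell s 1) = c at *
  have a1 := adj_dd h1
  have a2 := adj_dd h2
  have a3 := adj_dd h3
  simp only [Pi.add_apply, ← sub_sub] at a2 a3
  have := geo0 (s.2 0) (s.2 1) (s.2 2) (s.2 3) (p_ne s (by decide)) (p_ne s (by decide))
    (p_ne s (by decide)) (p_ne s (by decide)) (p_ne s (by decide)) (p_ne s (by decide))
    _ (by unfold dd at a1; simp; omega) _ (by unfold dd at a1; simp; omega)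
    _ (by unfold dd at a1; simp; omega) a1 a2 a3
  refine this.imp (fun h => ?_) fun h => ?_ <;> ext i <;> fin_cases i <;> simp <;> omega

noncomputable def fac (s : St) : Finset Cl := {io (cell s 1), io (cell s 2), io (cell s 3)}
noncomputable def alc (s : St) : Finset Cl := insert (io (cell s 0)) (fac s)

theorem fac_card (s : St) : (fac s).card ≤ 3 := Finset.card_le_three

theorem fac_flip (s : St) : fac (flip s) = fac s := by simp [fac]

theorem alc_rot (s : St) : alc (rot s) = alc s := by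
  ext v; simp only [alc, fac, Finset.mem_insert, Finset.mem_singleton, cell_rot0, cell_rot1,
    cell_rot2, cell_rot3]; tauto

theorem alc_nxt (ω : Om) (s : St) : alc (nxt ω s) = alc (flip s) := by
  unfold nxt turn; split_ifs <;> simp only [alc_rot]

theorem clique {Q : Finset Cl} {s : St} (h4 : Q.card = 4) (hq : ∀ v ∈ Q, ∀ w ∈ Q, v ≠ w → adj v w)
    (hf : fac s ⊆ Q) : Q = alc s ∨ Q = alc (flip s) := by
  obtain ⟨v, hv, hv'⟩ := Finset.exists_mem_notMem_of_card_lt_card (s := fac s) (t := Q)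
    (by have := fac_card s; omega)
  have ha : ∀ u ∈ fac s, adj v u := fun u hu => hq v hv u (hf hu) fun e => hv' (e ▸ hu)
  have h3 : (fac s).card = 3 := by
    obtain ⟨n1, n2, n3⟩ := cell_ne s
    exact Finset.card_eq_three.2 ⟨_, _, _, io_inj.ne n1, io_inj.ne n2, io_inj.ne n3, rfl⟩
  have e : insert v (fac s) = Q := Finset.eq_of_subset_of_card_le
    (Finset.insert_subset hv hf) (by rw [Finset.card_insert_of_notMem hv']; omega)
  rcases geo s v (ha _ (by simp [fac])) (ha _ (by simp [fac])) (ha _ (by simp [fac])) with h | h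
  · left; rw [← e, h]; rfl
  · right; rw [← e, h, alc, fac_flip]

theorem all3 : ∀ a c d : Fin 3, (∀ e : Fin 3, a = e ∨ c = e ∨ d = e) → a ≠ c ∧ a ≠ d ∧ c ≠ d := by
  decide

theorem tri_of {ω : Om} {s : St} (h : ∀ c : Fin 3, ∃ v ∈ fac s, ω v = c) :
    tri (fun u => ω (io u)) s := by
  refine all3 _ _ _ fun e => ?_
  obtain ⟨v, hv, rfl⟩ := h e
  simp only [fac, Finset.mem_insert, Finset.mem_singleton] at hv
  rcases hv with rfl | rfl | rfl <;> simp

theorem step1 {ω : Om} {s : St} {Q R : Finset Cl} (h : step ω Q R) (h1 : Q = alc s)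
    (h2 : Q ∩ R = fac s) : R = alc (flip s) ∧ tri (fun u => ω (io u)) s := by
  refine ⟨?_, tri_of (h2 ▸ h.2.2.2.2.2.2)⟩
  rcases clique h.2.1 h.2.2.2.2.1 (h2 ▸ Finset.inter_subset_right) with e | e
  · exact absurd (h1.trans e.symm) h.2.2.1
  · exact e

theorem step2 {ω : Om} {s : St} {R Z : Finset Cl} (h : step ω R Z) (h1 : R = alc s)
    (h2 : Z ≠ alc (flip s)) (ht : tri (fun u => ω (io u)) s) :
    R ∩ Z = fac (turn (fun u => ω (io u)) s) := by
  obtain ⟨v, hv, hv'⟩ := Finset.exists_mem_notMem_of_card_lt_card (s := R ∩ Z) (t := R)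
    (by have := h.1; have := h.2.2.2.2.2.1; omega)
  have key : ∀ s' : St, alc s' = alc s → v = io (cell s' 0) → R ∩ Z = fac s' := by
    intro s' e1 e2
    refine Finset.eq_of_subset_of_card_le (fun u hu => ?_)
      (by have := fac_card s'; have := h.2.2.2.2.2.1; omega)
    have : u ∈ alc s' := by rw [e1, ← h1]; exact (Finset.mem_inter.1 hu).1
    rcases Finset.mem_insert.1 this with e | e
    · exact absurd (e2 ▸ e ▸ hu) hv'
    · exact e
  obtain ⟨t1, t2, t3⟩ := id ht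
  beta_reduce at t1 t2 t3
  rw [h1] at hv
  simp only [alc, fac, Finset.mem_insert, Finset.mem_singleton] at hv
  rcases hv with e | e | e | e
  · exact absurd (step1 h h1 (key s rfl e)).1 h2
  · have k := key (rot s) (alc_rot s) e
    have := (step1 h (h1.trans (alc_rot s).symm) k).2
    simp only [tri, cell_rot1, cell_rot2, cell_rot3] at this
    rw [turn_eq1 ht (by omega), k]
  · have e1 : alc (rot (rot s)) = alc s := by simp only [alc_rot]
    have k := key _ e1 (by simpa using e)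
    have := (step1 h (h1.trans e1.symm) k).2
    simp only [tri, cell_rot0, cell_rot1, cell_rot2, cell_rot3] at this
    rw [turn_eq2 ht (by omega), k]
  · have e1 : alc (rot (rot (rot s))) = alc s := by simp only [alc_rot]
    have k := key _ e1 (by simpa using e)
    have := (step1 h (h1.trans e1.symm) k).2
    simp only [tri, cell_rot0, cell_rot1, cell_rot2, cell_rot3] at this
    rw [turn_eq3 ht (by omega), k]

theorem follow {ω : Om} {s : St} {x : ℕ → Finset Cl} {n : ℕ} (hi : Set.InjOn x (Set.Iic n))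
    (hs : ∀ k < n, step ω (x k) (x (k + 1))) (h1 : x 0 = alc s) (h2 : x 0 ∩ x 1 = fac s) (t : ℕ) :
    (t ≤ n → x t = alc (X (fun u => ω (io u)) s t)) ∧
      (t < n → x t ∩ x (t + 1) = fac (X (fun u => ω (io u)) s t)) := by
  induction t with
  | zero => exact ⟨fun _ => h1, fun _ => h2⟩
  | succ t ih =>
    refine ⟨fun h => ?_, fun h => ?_⟩
    · rw [X_succ, alc_nxt]
      exact (step1 (hs t h) (ih.1 (by omega)) (ih.2 h)).1
    · obtain ⟨a, c⟩ := step1 (hs t (by omega)) (ih.1 (by omega)) (ih.2 (by omega))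
      rw [X_succ]
      refine step2 (hs _ h) a ?_ ((tri_flip _ _).2 c)
      rw [Pool.Agent.MP_5f6c2d_pr.h58.flip_flip, ← ih.1 (by omega)]
      intro e
      have := hi (show t + 1 + 1 ≤ n by omega) (show t ≤ n by omega) e
      omega

theorem far_of {ω : Om} {s : St} {x : ℕ → Finset Cl} {n K : ℕ} (hn : 1 ≤ n)
    (hi : Set.InjOn x (Set.Iic n)) (hs : ∀ k < n, step ω (x k) (x (k + 1))) (h1 : x 0 = alc s)
    (h2 : x 0 ∩ x 1 = fac s) (h0 : cell s 1 = 0) {k : ℕ} (hk : k ≤ n) {v : Cl} (hv : v ∈ x k)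
    {i : Fin 3} (hr : 6 * (K : ℤ) + 1 ≤ |v i|) : Far n (2 * K) (fun u => ω (io u)) s := by
  refine ⟨(step1 (hs 0 hn) h1 h2).2, k, hk, ?_⟩
  rw [(follow hi hs h1 h2 k).1 hk] at hv
  obtain ⟨m, rfl⟩ : ∃ m, v = io (cell (X (fun u => ω (io u)) s k) m) := by
    simp only [alc, fac, Finset.mem_insert, Finset.mem_singleton] at hv
    rcases hv with e | e | e | e <;> exact ⟨_, e⟩
  by_contra hh
  push Not at hh
  have a : ∀ i j, be i j (cell (X (fun u => ω (io u)) s k) m) ≤ 2 * K := fun i j => by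
    have := hh i j
    have := (L_cell i j (X (fun u => ω (io u)) s k) m).2
    have := (L_cell i j s 1).1
    rw [h0, show be i j 0 = 0 by unfold be b; split_ifs <;> simp] at this
    push_cast at *; omega
  have a0 := a 0 3; have a1 := a 1 3; have a2 := a 2 3
  have c0 := a 3 0; have c1 := a 3 1; have c2 := a 3 2
  generalize cell (X (fun u => ω (io u)) s k) m = u at *
  simp [be, b] at a0 a1 a2 c0 c1 c2
  rw [le_abs] at hr
  fin_cases i <;> simp [io] at hr <;> omega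

theorem meas_Far (n r : ℕ) (s : St) : MeasurableSet {ω | Far n r ω s} :=
  measurableSet_setOfPred.2 <| (meas_tri s).and <| Measurable.exists fun t =>
    measurable_const.and <| meas_XP s t fun x => ∃ i j, (r : ℤ) ≤ L i j x - L i j s

theorem mu_Far (ν : Measure (Fin 3)) [IsProbabilityMeasure ν] (n r : ℕ) (s : St) :
    mu ν {ω | Far n r ω s} ≤ dens ν (Far n r) := by
  refine le_trans (le_of_eq ?_) (le_dens ν (Far n r) s.2)
  rw [← mu_pre ν (tr s.1).inj (meas_Far n r (0, s.2))]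
  have e : s = (tr s.1).act (0, s.2) := by rw [tr_act, zero_add]
  congr 1; ext ω
  rw [Set.mem_ofPred_eq, Set.mem_ofPred_eq]
  conv_lhs => rw [e]
  simp only [Far, Sym.tri_act, Sym.X_act, L_tr, add_sub_add_right_eq_sub]

def s0 : St := (-w 2, Equiv.swap 0 1 * Equiv.swap 0 2)

theorem s0_1 : cell s0 1 = 0 := by decide
theorem s0_fac : fac s0 = {![0, 0, 0], ![2, 0, 0], ![1, 1, 1]} := by
  have e1 : io (cell s0 1) = ![0, 0, 0] := by decide
  have e2 : io (cell s0 2) = ![1, 1, 1] := by decide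
  have e3 : io (cell s0 3) = ![2, 0, 0] := by decide
  rw [fac, e1, e2, e3, Finset.pair_comm]

theorem result : ∃ c C : ℝ, 0 < c ∧ ∀ (p : PMF (Fin 3)) (n r : ℕ), 1 ≤ n → 1 ≤ r →
    Measure.infinitePi (fun _ : Fin 3 → ℤ => p.toMeasure)
      {ω | ∃ x : ℕ → Finset (Fin 3 → ℤ), Set.InjOn x (Set.Iic n) ∧
        (∀ k < n, step ω (x k) (x (k + 1))) ∧ x 0 ∩ x 1 = {![0, 0, 0], ![2, 0, 0], ![1, 1, 1]} ∧
        ∃ k ≤ n, ∃ v ∈ x k, ∃ i, (r : ℤ) ≤ |v i|}
      ≤ ENNReal.ofReal (C * n / (r : ℝ) ^ (1 + c)) := by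
  obtain ⟨c, c0, h⟩ := far_bound
  refine ⟨c, 8000 * 12 ^ (1 + c), c0, fun p n r hn hr => ?_⟩
  have n1 : (1 : ℝ) ≤ n := by exact_mod_cast hn
  have r0 : (0 : ℝ) < r := by exact_mod_cast hr
  have p0 : 0 < (r : ℝ) ^ (1 + c) := by positivity
  have p1 : 0 < (12 : ℝ) ^ (1 + c) := by positivity
  rcases Nat.lt_or_ge r 7 with h7 | h7
  · refine prob_le_one.trans (ENNReal.one_le_ofReal.2 ?_)
    have : (r : ℝ) ^ (1 + c) ≤ 12 ^ (1 + c) :=
      Real.rpow_le_rpow r0.le (by exact_mod_cast (by omega)) (by linarith)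
    rw [le_div_iff₀ p0]; nlinarith
  set K := (r - 1) / 6 with hK
  have K1 : 1 ≤ K := by omega
  have K0 : (0 : ℝ) < K := by exact_mod_cast K1
  change mu p.toMeasure _ ≤ _
  refine le_trans (measure_mono (t := {ω | (fun ω => Far n (2 * K) ω s0 ∨
    Far n (2 * K) ω (flip s0)) fun u => ω (io u)}) ?_) ?_
  · rintro ω ⟨x, hi, hs, h0, k, hk, v, hv, i, hv'⟩
    have e := h0.trans s0_fac.symm
    have hr : 6 * (K : ℤ) + 1 ≤ |v i| := le_trans (by omega) hv'
    rcases clique (hs 0 hn).1 (hs 0 hn).2.2.2.1 (e ▸ Finset.inter_subset_left) with d | d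
    · exact Or.inl (far_of hn hi hs d e s0_1 hk hv hr)
    · exact Or.inr (far_of hn hi hs d (by rw [fac_flip, e]) (by rw [cell_flip1, s0_1]) hk hv hr)
  · rw [mu_pre _ io_inj (E := fun ω => Far n (2 * K) ω s0 ∨ Far n (2 * K) ω (flip s0))
      ((meas_Far _ _ _).union (meas_Far _ _ _))]
    refine (measure_union_le {ω | Far n (2 * K) ω s0} {ω | Far n (2 * K) ω (flip s0)}).trans
      ((add_le_add (mu_Far _ _ _ _) (mu_Far _ _ _ _)).trans ?_)
    have dt := dens_ne_top p.toMeasure (Far n (2 * K))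
    rw [ENNReal.le_ofReal_iff_toReal_le (by finiteness) (by positivity), ENNReal.toReal_add dt dt]
    have h1 := h p.toMeasure n K K1
    have h2 : (r : ℝ) ^ (1 + c) ≤ 12 ^ (1 + c) * (K : ℝ) ^ (1 + c) := by
      rw [← Real.mul_rpow (by norm_num) K0.le]
      exact Real.rpow_le_rpow r0.le (by exact_mod_cast (by omega)) (by linarith)
    have p2 : 0 < (K : ℝ) ^ (1 + c) := by positivity
    rw [le_div_iff₀ p2] at h1
    rw [le_div_iff₀ p0]
    have d0 : 0 ≤ (dens p.toMeasure (Far n (2 * K))).toReal := ENNReal.toReal_nonneg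
    generalize (dens p.toMeasure (Far n (2 * K))).toReal = D at *
    nlinarith [mul_le_mul_of_nonneg_left h2 d0, mul_le_mul_of_nonneg_left h1 p1.le,
      mul_le_mul_of_nonneg_left n1 p1.le]

end Pool.Agent.Results.MP_5f6c2d_pr.SubBallistic
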